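import Pool.Agent.Lib.MP_9e8697_nt.QualC
import Pool.Agent.Lib.MP_9e8697_nt.Few

/-!
# Cycles of Conway's permutation with few local minima
-/

namespace Pool.Agent.Results.MP_9e8697_nt.FewMinima

open Pool.Agent.MP_9e8697_nt Function

theorem result :
    (∃ K : ℝ, ∀ x : ℕ, 0 < x → 0 < minimalPeriod T x →
      (minimalPeriod T x : ℝ) ≤ K * (minima x + 1) * (Real.log 3 / Real.log 2) ^ minima x) ∧
    ∀ x : ℕ, 0 < x → 0 < minimalPeriod T x → minima x ≤ 12 →
      x ∈ ({1, 2, 3, 4, 6, 9, 7, 5, 44, 66, 99, 74, 111, 83, 62, 93, 70, 105, 79, 59} :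
        Finset ℕ) :=
  ⟨exists_length_le, fun _ hx hp hM => mem_known hx hp hM⟩

end Pool.Agent.Results.MP_9e8697_nt.FewMinima
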