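import Pool.Agent.Lib.MP_9e8697_nt.CW.K2
import Pool.Agent.Lib.MP_9e8697_nt.CW.PL

/-!
# Almost every orbit of Conway's permutation is long and climbs beyond the horizon `log_2 n`
-/

set_option autoImplicit false

namespace Pool.Agent.Results.MP_9e8697_nt.LongTallOrbits

open Function
open Pool.Agent.MP_9e8697_nt (T)

open Classical in
/-- There are `c > 0` and `K` such that all `n ≤ X` but `K X^(1-c)` satisfy: some `T^j(n)` is at least
`n^(2 log 3/(3 log 2) + c)`, and the orbit of `n` is infinite or a cycle of length more than `n^c`. -/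
theorem result : ∃ c K : ℝ, 0 < c ∧ ∀ X : ℕ, 1 ≤ X →
    (((Finset.Icc 1 X).filter (fun n : ℕ =>
      ¬ ((∃ j : ℕ, (n : ℝ) ^ (2 * Real.log 3 / (3 * Real.log 2) + c) ≤ ((T^[j] n : ℕ) : ℝ)) ∧
        (minimalPeriod T n = 0 ∨ (n : ℝ) ^ c < (minimalPeriod T n : ℝ))))).card : ℝ) ≤
      K * (X : ℝ) ^ (1 - c) := by
  obtain ⟨c, κ, K, hc, hκ, hK, h⟩ := Pool.Agent.MP9e8697.CW.growth_final
  set d : ℝ := min (min c κ) (1 / 34) with hd
  have hd0 : 0 < d := lt_min (lt_min hc hκ) (by norm_num)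
  have hdc : d ≤ c := (min_le_left _ _).trans (min_le_left _ _)
  have hdκ : d ≤ κ := (min_le_left _ _).trans (min_le_right _ _)
  have hd34 : d ≤ 1 / 34 := min_le_right _ _
  refine ⟨d, K + 10 ^ 27, hd0, fun X hX => ?_⟩
  have hX1 : (1 : ℝ) ≤ X := by exact_mod_cast hX
  have h1 := h X hX
  have h2 := Pool.Agent.MP9e8697.CW.long_orbits X hX
  have hsub : ((Finset.Icc 1 X).filter (fun n : ℕ =>
      ¬ ((∃ j : ℕ, (n : ℝ) ^ (2 * Real.log 3 / (3 * Real.log 2) + d) ≤ ((T^[j] n : ℕ) : ℝ)) ∧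
        (minimalPeriod T n = 0 ∨ (n : ℝ) ^ d < (minimalPeriod T n : ℝ))))) ⊆
      ((Finset.Icc 1 X).filter (fun n : ℕ => ∀ j : ℕ,
        ((T^[j] n : ℕ) : ℝ) < (n : ℝ) ^ (Pool.Agent.MP9e8697.CW.theta + c))) ∪
      ((Finset.Icc 1 X).filter (fun n : ℕ => 0 < minimalPeriod T n ∧
        (minimalPeriod T n : ℝ) ≤ (n : ℝ) ^ (1 / 34 : ℝ))) := by
    intro n hn
    rw [Finset.mem_filter, Finset.mem_Icc] at hn
    obtain ⟨hn1, hn2⟩ := hn
    have hn0 : (1 : ℝ) ≤ n := by exact_mod_cast hn1.1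
    rw [Finset.mem_union, Finset.mem_filter, Finset.mem_filter, Finset.mem_Icc]
    by_cases hg : ∃ j : ℕ, (n : ℝ) ^ (2 * Real.log 3 / (3 * Real.log 2) + d) ≤ ((T^[j] n : ℕ) : ℝ)
    · right
      have h3 : ¬ (minimalPeriod T n = 0 ∨ (n : ℝ) ^ d < (minimalPeriod T n : ℝ)) := fun h3 => hn2 ⟨hg, h3⟩
      rw [not_or, not_lt] at h3
      refine ⟨hn1, Nat.pos_of_ne_zero h3.1, h3.2.trans ?_⟩
      exact Real.rpow_le_rpow_of_exponent_le hn0 hd34
    · left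
      refine ⟨hn1, fun j => ?_⟩
      by_contra hcon
      rw [not_lt] at hcon
      refine hg ⟨j, le_trans ?_ hcon⟩
      apply Real.rpow_le_rpow_of_exponent_le hn0
      have : Pool.Agent.MP9e8697.CW.theta = 2 * Real.log 3 / (3 * Real.log 2) := rfl
      rw [this]
      linarith
  have h4 := (Finset.card_le_card hsub).trans (Finset.card_union_le _ _)
  have h5 : (((Finset.Icc 1 X).filter (fun n : ℕ =>
      ¬ ((∃ j : ℕ, (n : ℝ) ^ (2 * Real.log 3 / (3 * Real.log 2) + d) ≤ ((T^[j] n : ℕ) : ℝ)) ∧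
        (minimalPeriod T n = 0 ∨ (n : ℝ) ^ d < (minimalPeriod T n : ℝ))))).card : ℝ) ≤
      (((Finset.Icc 1 X).filter (fun n : ℕ => ∀ j : ℕ,
        ((T^[j] n : ℕ) : ℝ) < (n : ℝ) ^ (Pool.Agent.MP9e8697.CW.theta + c))).card : ℝ) +
      (((Finset.Icc 1 X).filter (fun n : ℕ => 0 < minimalPeriod T n ∧
        (minimalPeriod T n : ℝ) ≤ (n : ℝ) ^ (1 / 34 : ℝ))).card : ℝ) := by
    exact_mod_cast h4
  have h6 : (X : ℝ) ^ (1 - κ) ≤ (X : ℝ) ^ (1 - d) := Real.rpow_le_rpow_of_exponent_le hX1 (by linarith)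
  have h7 : (X : ℝ) ^ (33 / 34 : ℝ) ≤ (X : ℝ) ^ (1 - d) :=
    Real.rpow_le_rpow_of_exponent_le hX1 (by linarith)
  calc _ ≤ _ := h5
    _ ≤ K * (X : ℝ) ^ (1 - κ) + 10 ^ 27 * (X : ℝ) ^ (33 / 34 : ℝ) := add_le_add h1 h2
    _ ≤ K * (X : ℝ) ^ (1 - d) + 10 ^ 27 * (X : ℝ) ^ (1 - d) :=
        add_le_add (mul_le_mul_of_nonneg_left h6 hK.le) (mul_le_mul_of_nonneg_left h7 (by positivity))
    _ = (K + 10 ^ 27) * (X : ℝ) ^ (1 - d) := by ring

end Pool.Agent.Results.MP_9e8697_nt.LongTallOrbits
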