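import Pool.Agent.Lib.MP_9e8697_nt.Lengths

/-!
# The lengths of the cycles of Conway's permutation have density zero
-/

namespace Pool.Agent.Results.MP_9e8697_nt.SparseCycleLengths

open Pool.Agent.MP_9e8697_nt Function

open Classical in
theorem result :
    (∃ K : ℝ, ∀ N : ℕ, 2 ≤ N → ∀ S : Finset ℕ,
      (∀ x ∈ S, 0 < x ∧ 0 < minimalPeriod T x ∧ minimalPeriod T x ≤ N) →
      (∀ x ∈ S, ∀ y ∈ S, ∀ k : ℕ, T^[k] x = y → x = y) →
      ∑ x ∈ S, |(minimalPeriod T x : ℝ) * Real.logb 2 3 -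
        round ((minimalPeriod T x : ℝ) * Real.logb 2 3)| ≤ K * Real.log N) ∧
    ∃ K : ℝ, ∀ N : ℕ, 1 ≤ N →
      (((Finset.Icc 1 N).filter (fun p => ∃ x, 0 < x ∧ minimalPeriod T x = p)).card : ℝ) ≤
        K * (N : ℝ) ^ (0.97 : ℝ) := by
  refine ⟨?_, exists_card_le⟩
  obtain ⟨K, hK⟩ := exists_sum_le
  refine ⟨K, fun N hN S h1 h2 => ?_⟩
  exact hK N hN S ⟨fun x hx => (h1 x hx).1, fun x hx => (h1 x hx).2.1,
    fun x hx => (h1 x hx).2.2, h2⟩

end Pool.Agent.Results.MP_9e8697_nt.SparseCycleLengths
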