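import Pool.Agent.Lib.MP_9e8697_nt.SL.Main

/-!
# In every cycle and every orbit of Conway's permutation almost all elements are large
-/

set_option autoImplicit false

namespace Pool.Agent.Results.MP_9e8697_nt.SuperlinearOrbits

open Pool.Agent.MP_9e8697_nt (T)

open Classical in
/-- For every `0 < ε ≤ 1` there is `K` such that (a) if `x, T x, ..., T^(L-1) x` are pairwise different, then at most
`ε L + K` of them are `≤ L^(1+ε/100)`; (b) a finite set `S` has at most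
`ε #S + K X^(1-ε/100) + K log(X+1) #(T(S) \ S)` elements `≤ X`. -/
theorem result : ∀ ε : ℝ, 0 < ε → ε ≤ 1 → ∃ K : ℝ,
    (∀ x L : ℕ, (∀ i < L, ∀ j < L, T^[i] x = T^[j] x → i = j) →
      (((Finset.range L).filter (fun k => ((T^[k] x : ℕ) : ℝ) ≤ (L : ℝ) ^ (1 + ε / 100))).card : ℝ) ≤
        ε * L + K) ∧
    ∀ (S : Finset ℕ) (X : ℕ), 1 ≤ X →
      ((S.filter (fun m => m ≤ X)).card : ℝ) ≤
        ε * S.card + K * (X : ℝ) ^ (1 - ε / 100) + K * Real.log (X + 1) * ((S.image T \ S).card : ℝ) := by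
  intro ε h0 h1
  obtain ⟨K₁, hK₁, h₁⟩ := Pool.Agent.MP_9e8697_nt.SL.part_one ε h0 h1
  obtain ⟨K₂, hK₂, h₂⟩ := Pool.Agent.MP_9e8697_nt.SL.part_two ε h0 h1
  refine ⟨K₁ + K₂, fun x L hL => ?_, fun S X hX => ?_⟩
  · have h := h₂ x L hL
    linarith
  · have h := h₁ S X hX
    have e1 : 98 / 100 * ε * (S.card : ℝ) ≤ ε * S.card :=
      mul_le_mul_of_nonneg_right (by linarith) (Nat.cast_nonneg _)
    have e2 : K₁ * (X : ℝ) ^ (1 - ε / 100) ≤ (K₁ + K₂) * (X : ℝ) ^ (1 - ε / 100) :=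
      mul_le_mul_of_nonneg_right (by linarith) (by positivity)
    have hlog : 0 ≤ Real.log ((X : ℝ) + 1) :=
      Real.log_nonneg (by linarith [(Nat.cast_nonneg X : (0 : ℝ) ≤ X)])
    have e3 : K₁ * Real.log (X + 1) * ((S.image T \ S).card : ℝ) ≤
        (K₁ + K₂) * Real.log (X + 1) * ((S.image T \ S).card : ℝ) :=
      mul_le_mul_of_nonneg_right (mul_le_mul_of_nonneg_right (by linarith) hlog) (Nat.cast_nonneg _)
    calc ((S.filter (fun m => m ≤ X)).card : ℝ) ≤ _ := h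
      _ ≤ _ := by linarith

end Pool.Agent.Results.MP_9e8697_nt.SuperlinearOrbits
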